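import Mathlib

/-!
# Largest progression free sets: definitions and the elementary inequalities
-/

set_option autoImplicit false

open Finset

namespace Pool.Agent.H617R3.AP

/-- `A` contains no arithmetic progression `a, a + d, ..., a + (k - 1) d` with `d ≥ 1`. -/
def APFree (k : ℕ) (A : Finset ℕ) : Prop :=
  ∀ a d : ℕ, 1 ≤ d → ¬ ∀ i < k, a + i * d ∈ A

open Classical in
/-- `r k N`: the largest size of a subset of `{1, ..., N}` without arithmetic progression of
length `k`. -/
noncomputable def r (k N : ℕ) : ℕ :=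
  ((Icc 1 N).powerset.filter (fun A => APFree k A)).sup card

theorem card_le_r {k N : ℕ} {A : Finset ℕ} (hA : A ⊆ Icc 1 N) (h : APFree k A) :
    A.card ≤ r k N := by
  classical
  unfold r
  exact Finset.le_sup (f := card) (by
    rw [mem_filter, mem_powerset]
    exact ⟨hA, h⟩)

theorem APFree.mono {k : ℕ} {A B : Finset ℕ} (h : APFree k A) (hB : B ⊆ A) : APFree k B :=
  fun a d hd h2 => h a d hd fun i hi => hB (h2 i hi)

theorem exists_opt {k : ℕ} (hk : 1 ≤ k) (N : ℕ) :
    ∃ A : Finset ℕ, A ⊆ Icc 1 N ∧ APFree k A ∧ A.card = r k N := by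
  classical
  have hne : ((Icc 1 N).powerset.filter (fun A => APFree k A)).Nonempty := by
    refine ⟨∅, ?_⟩
    rw [mem_filter]
    refine ⟨empty_mem_powerset _, fun a d _ h => ?_⟩
    have := h 0 (by omega)
    simp at this
  obtain ⟨A, hA, hA2⟩ := Finset.exists_mem_eq_sup _ hne card
  rw [mem_filter, mem_powerset] at hA
  exact ⟨A, hA.1, hA.2, hA2.symm⟩

/-- a progression free set meets a progression with `l` terms in at most `r k l` points -/
theorem card_filter_le {k : ℕ} (hk : 1 ≤ k) {A : Finset ℕ} (hA : APFree k A) {q : ℕ} (hq : 1 ≤ q)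
    (c l : ℕ) : ((range l).filter (fun j => c + q * j ∈ A)).card ≤ r k l := by
  classical
  set B := ((range l).filter (fun j => c + q * j ∈ A)).image (fun j => j + 1) with hB
  have hmem : ∀ j, j ∈ B → 1 ≤ j ∧ j - 1 < l ∧ c + q * (j - 1) ∈ A := by
    intro j hj
    rw [hB, mem_image] at hj
    obtain ⟨i, hi, rfl⟩ := hj
    rw [mem_filter, mem_range] at hi
    exact ⟨by omega, by simpa using hi.1, by simpa using hi.2⟩
  have h1 : B ⊆ Icc 1 l := by
    intro j hj
    obtain ⟨h2, h3, -⟩ := hmem j hj
    rw [mem_Icc]; omega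
  have h2 : APFree k B := by
    intro a d hd h
    have ha : 1 ≤ a := by
      have := (hmem _ (h 0 (by omega))).1
      simpa using this
    refine hA (c + q * (a - 1)) (q * d) (Nat.mul_pos hq hd) fun i hi => ?_
    have h3 := (hmem _ (h i hi)).2.2
    have e : c + q * (a + i * d - 1) = c + q * (a - 1) + i * (q * d) := by
      obtain ⟨b, rfl⟩ : ∃ b, a = b + 1 := ⟨a - 1, by omega⟩
      have : b + 1 + i * d - 1 = b + i * d := by omega
      rw [this]
      simp only [Nat.add_sub_cancel]
      ring
    rwa [e] at h3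
  have h3 := card_le_r h1 h2
  rwa [hB, card_image_of_injective _ (fun a b h => by simpa using h)] at h3

/-- the points of `A` in the interval `(u, v]` in a residue class -/
theorem card_class_le {k : ℕ} (hk : 1 ≤ k) {A : Finset ℕ} (hA : APFree k A) {q : ℕ} (hq : 1 ≤ q)
    (c u v : ℕ) :
    (A.filter (fun n => u < n ∧ n ≤ v ∧ n % q = c)).card ≤ r k ((v - u) / q + 1) := by
  classical
  set S := A.filter (fun n => u < n ∧ n ≤ v ∧ n % q = c) with hS
  rcases S.eq_empty_or_nonempty with h0 | h0
  · rw [h0]; simp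
  · set n₀ := S.min' h0 with hn₀
    have hm : n₀ ∈ S := S.min'_mem h0
    have hm2 := hm
    rw [hS, mem_filter] at hm2
    refine le_trans ?_ (card_filter_le hk hA hq n₀ ((v - u) / q + 1))
    refine card_le_card_of_injOn (fun n => (n - n₀) / q) ?_ ?_
    · intro n hn
      have hn1 : n ∈ S := hn
      have hle : n₀ ≤ n := S.min'_le n hn1
      rw [hS, mem_filter] at hn1
      have hdvd : q ∣ n - n₀ := by
        have : n₀ ≡ n [MOD q] := by
          show n₀ % q = n % q
          rw [hm2.2.2.2, hn1.2.2.2]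
        exact (Nat.modEq_iff_dvd' hle).1 this
      simp only [coe_filter, mem_range, Set.mem_ofPred_eq]
      constructor
      · have : (n - n₀) / q ≤ (v - u) / q := Nat.div_le_div_right (by omega)
        omega
      · rw [Nat.mul_div_cancel' hdvd]
        have : n₀ + (n - n₀) = n := by omega
        rw [this]; exact hn1.1
    · intro n hn n' hn' h
      have hn1 : n ∈ S := hn
      have hn2 : n' ∈ S := hn'
      have hle : n₀ ≤ n := S.min'_le n hn1
      have hle' : n₀ ≤ n' := S.min'_le n' hn2
      rw [hS, mem_filter] at hn1 hn2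
      have hdvd : q ∣ n - n₀ := by
        have : n₀ ≡ n [MOD q] := by
          show n₀ % q = n % q
          rw [hm2.2.2.2, hn1.2.2.2]
        exact (Nat.modEq_iff_dvd' hle).1 this
      have hdvd' : q ∣ n' - n₀ := by
        have : n₀ ≡ n' [MOD q] := by
          show n₀ % q = n' % q
          rw [hm2.2.2.2, hn2.2.2.2]
        exact (Nat.modEq_iff_dvd' hle').1 this
      simp only at h
      have h3 : n - n₀ = n' - n₀ := by
        rw [← Nat.mul_div_cancel' hdvd, h, Nat.mul_div_cancel' hdvd']
      omega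

theorem r_mono {k : ℕ} {M N : ℕ} (h : M ≤ N) : r k M ≤ r k N := by
  classical
  unfold r
  apply Finset.sup_mono
  intro A hA
  rw [mem_filter, mem_powerset] at hA ⊢
  exact ⟨hA.1.trans (Icc_subset_Icc le_rfl h), hA.2⟩

theorem r_zero (k : ℕ) : r k 0 = 0 := by
  classical
  unfold r
  rw [← Nat.le_zero]
  refine Finset.sup_le fun A hA => ?_
  rw [mem_filter, mem_powerset] at hA
  have : A.card ≤ (Icc 1 0).card := card_le_card hA.1
  simpa using this

theorem r_le_self (k N : ℕ) : r k N ≤ N := by
  classical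
  unfold r
  refine Finset.sup_le fun A hA => ?_
  rw [mem_filter, mem_powerset] at hA
  have : A.card ≤ (Icc 1 N).card := card_le_card hA.1
  simpa using this

theorem r_add {k : ℕ} (hk : 1 ≤ k) (M N : ℕ) : r k (M + N) ≤ r k M + r k N := by
  classical
  obtain ⟨A, hA, hA2, hA3⟩ := exists_opt hk (M + N)
  rw [← hA3]
  have h1 : (A.filter (fun n => n ≤ M)).card ≤ r k M := by
    refine card_le_r (fun n hn => ?_) (hA2.mono (filter_subset _ _))
    rw [mem_filter] at hn
    have := hA hn.1
    rw [mem_Icc] at this ⊢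
    exact ⟨this.1, hn.2⟩
  have h2 : (A.filter (fun n => ¬ n ≤ M)).card ≤ r k N := by
    refine le_trans ?_ (card_filter_le hk hA2 (q := 1) le_rfl (M + 1) N)
    refine card_le_card_of_injOn (fun n => n - (M + 1)) ?_ ?_
    · intro n hn
      have hn1 : n ∈ A.filter (fun n => ¬ n ≤ M) := hn
      rw [mem_filter] at hn1
      have h4 := hA hn1.1
      rw [mem_Icc] at h4
      simp only [coe_filter, mem_range, Set.mem_ofPred_eq, one_mul]
      constructor
      · omega
      · have : M + 1 + (n - (M + 1)) = n := by omega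
        rw [this]; exact hn1.1
    · intro n hn n' hn' h
      have hn1 : n ∈ A.filter (fun n => ¬ n ≤ M) := hn
      have hn2 : n' ∈ A.filter (fun n => ¬ n ≤ M) := hn'
      rw [mem_filter] at hn1 hn2
      simp only at h
      omega
  have h3 := Finset.card_filter_add_card_filter_not (s := A) (fun n => n ≤ M)
  omega

theorem r_mul_le {k : ℕ} (hk : 1 ≤ k) (m N : ℕ) : r k (m * N) ≤ m * r k N := by
  induction m with
  | zero => simp [r_zero]
  | succ m ih =>
    rw [Nat.succ_mul, Nat.succ_mul]
    exact (r_add hk _ _).trans (Nat.add_le_add_right ih _)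

/-- the density is almost decreasing -/
theorem r_le {k : ℕ} (hk : 1 ≤ k) (M : ℕ) {N : ℕ} (hN : 0 < N) :
    (r k M : ℝ) ≤ ((M : ℝ) + N) * ((r k N : ℝ) / N) := by
  have h1 : M ≤ (M / N + 1) * N := by
    have := Nat.div_add_mod M N
    have h2 := Nat.mod_lt M hN
    nlinarith
  have h2 : r k M ≤ (M / N + 1) * r k N := (r_mono h1).trans (r_mul_le hk _ _)
  have h3 : (r k M : ℝ) ≤ (((M / N : ℕ) : ℝ) + 1) * r k N := by exact_mod_cast h2
  have h4 : (((M / N : ℕ) : ℝ)) ≤ (M : ℝ) / N := Nat.cast_div_le
  have hN' : (0 : ℝ) < N := by exact_mod_cast hN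
  refine h3.trans ?_
  have e : ((M : ℝ) + N) * ((r k N : ℝ) / N) = ((M : ℝ) / N + 1) * r k N := by
    field_simp
  rw [e]
  exact mul_le_mul_of_nonneg_right (by linarith) (Nat.cast_nonneg _)

/-- Behrend's lower bound -/
theorem behrend {k : ℕ} (hk : 3 ≤ k) (N : ℕ) :
    (N : ℝ) * Real.exp (-4 * √(Real.log N)) ≤ r k N := by
  classical
  refine Behrend.roth_lower_bound.trans ?_
  obtain ⟨t, ht1, ht2, ht3⟩ := rothNumberNat_spec N
  have h : rothNumberNat N ≤ r k N := by
    rw [← ht2, ← card_image_of_injective t (fun a b h => by simpa using h : Function.Injective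
      (fun n : ℕ => n + 1))]
    refine card_le_r ?_ ?_
    · intro n hn
      rw [mem_image] at hn
      obtain ⟨m, hm, rfl⟩ := hn
      have := ht1 hm
      rw [mem_range] at this
      rw [mem_Icc]; omega
    · intro a d hd h
      have h0 := h 0 (by omega)
      have h1 := h 1 (by omega)
      have h2 := h 2 (by omega)
      rw [mem_image] at h0 h1 h2
      obtain ⟨x, hx, hx'⟩ := h0
      obtain ⟨y, hy, hy'⟩ := h1
      obtain ⟨z, hz, hz'⟩ := h2
      have := ht3 hx hy hz (by omega)
      omega
  exact_mod_cast h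

end Pool.Agent.H617R3.AP
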