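import Pool.Agent.H617R3.AP.Scale

/-!
# Regular growth and equidistribution
-/

set_option autoImplicit false

open Finset

namespace Pool.Agent.H617R3.AP

theorem exp_le {τ : ℝ} (h0 : 0 < τ) (h1 : τ ≤ 1) :
    Real.exp (τ / 4) * (1 + 1 / (8 / τ)) * (1 + 1 / (8 / τ)) ≤ 1 + τ := by
  have e : 1 / (8 / τ) = τ / 8 := by field_simp
  rw [e]
  have h2 : 1 + τ / 8 ≤ Real.exp (τ / 8) := by
    have := Real.add_one_le_exp (τ / 8); linarith
  have h3 : Real.exp (τ / 4) * (1 + τ / 8) * (1 + τ / 8) ≤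
      Real.exp (τ / 4) * Real.exp (τ / 8) * Real.exp (τ / 8) := by
    apply mul_le_mul _ h2 (by linarith) (by positivity)
    exact mul_le_mul_of_nonneg_left h2 (Real.exp_pos _).le
  refine h3.trans ?_
  rw [← Real.exp_add, ← Real.exp_add]
  have h4 : 1 - τ / 2 ≤ Real.exp (-(τ / 2)) := by
    have := Real.add_one_le_exp (-(τ / 2)); linarith
  have h5 : Real.exp (τ / 4 + τ / 8 + τ / 8) * Real.exp (-(τ / 2)) = 1 := by
    rw [← Real.exp_add]; ring_nf; exact Real.exp_zero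
  have h6 : 0 < Real.exp (τ / 4 + τ / 8 + τ / 8) := Real.exp_pos _
  have h7 : Real.exp (τ / 4 + τ / 8 + τ / 8) * (1 - τ / 2) ≤ 1 := by
    calc _ ≤ Real.exp (τ / 4 + τ / 8 + τ / 8) * Real.exp (-(τ / 2)) :=
          mul_le_mul_of_nonneg_left h4 h6.le
      _ = 1 := h5
  nlinarith

/-- irregular scales -/
def Bad (k m : ℕ) (η : ℝ) : Set ℕ := {j | j < m ∨ η < f k (j - m) - f k (j - m + 2 * m)}

open Classical in
theorem bad_card {k : ℕ} (hk : 3 ≤ k) (m K : ℕ) {η : ℝ} (hη : 0 < η) :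
    (((range K).filter (fun j => j ∈ Bad k m η)).card : ℝ) ≤
      m + 8 * m * √((K : ℝ) + 2 * m) / η := by
  have h1 : (range K).filter (fun j => j ∈ Bad k m η) ⊆
      range m ∪ ((range K).filter (fun i => η < f k i - f k (i + 2 * m))).image (fun i => i + m) := by
    intro j hj
    rw [mem_filter, mem_range] at hj
    rw [mem_union, mem_range, mem_image]
    by_cases h : j < m
    · exact Or.inl h
    · rcases hj.2 with h2 | h2
      · exact absurd h2 h
      · refine Or.inr ⟨j - m, ?_, by omega⟩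
        rw [mem_filter, mem_range]
        exact ⟨by omega, h2⟩
  have h2 := (card_le_card h1).trans ((card_union_le _ _).trans
    (Nat.add_le_add_left card_image_le _))
  rw [card_range] at h2
  have h3 := card_bad_le hk K (2 * m) hη
  have h4 : (((range K).filter (fun j => j ∈ Bad k m η)).card : ℝ) ≤
      m + ((range K).filter (fun i => η < f k i - f k (i + 2 * m))).card := by exact_mod_cast h2
  refine h4.trans ?_
  push_cast at h3
  have e : 4 * (2 * (m : ℝ)) * √((K : ℝ) + 2 * m) / η = 8 * m * √((K : ℝ) + 2 * m) / η := by ring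
  rw [e] at h3
  linarith

theorem natlog_le {x : ℕ} (hx : 1 ≤ x) : ((Nat.log 2 x : ℕ) : ℝ) ≤ 3 / 2 * Real.log x := by
  have h1 : ((Nat.log 2 x : ℕ) : ℝ) * Real.log 2 ≤ Real.log x := by
    rw [← Real.log_pow]
    apply Real.log_le_log (by positivity)
    exact_mod_cast Nat.pow_log_le_self 2 (by omega : x ≠ 0)
  have h2 := Real.log_two_gt_d9
  have h3 : (0 : ℝ) ≤ (Nat.log 2 x : ℕ) := Nat.cast_nonneg _
  nlinarith

open Classical in
theorem bad_sqrt {k : ℕ} (hk : 3 ≤ k) (m : ℕ) {η : ℝ} (hη : 0 < η) :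
    ∃ C : ℝ, ∀ x : ℕ, 2 ≤ x →
      (((range (Nat.log 2 x + 1)).filter (fun j => j ∈ Bad k m η)).card : ℝ) ≤
        C * √(Real.log x) := by
  refine ⟨2 * m + 8 * m * √(3 + 3 * m) / η, fun x hx => ?_⟩
  refine (bad_card hk m _ hη).trans ?_
  have hx' : (2 : ℝ) ≤ x := by exact_mod_cast hx
  have hl2 := Real.log_two_gt_d9
  have hl : Real.log 2 ≤ Real.log x := Real.log_le_log (by norm_num) hx'
  have hK := natlog_le (x := x) (by omega)
  have hm : (0 : ℝ) ≤ m := Nat.cast_nonneg m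
  have h1 : (1 : ℝ) ≤ 2 * √(Real.log x) := by
    have : (1 / 2 : ℝ) ≤ √(Real.log x) := by
      apply Real.le_sqrt_of_sq_le; norm_num; linarith
    linarith
  have h2 : √(((Nat.log 2 x + 1 : ℕ) : ℝ) + 2 * m) ≤ √(3 + 3 * m) * √(Real.log x) := by
    rw [← Real.sqrt_mul (by positivity)]
    apply Real.sqrt_le_sqrt
    push_cast
    nlinarith
  have h3 : 8 * m * √(((Nat.log 2 x + 1 : ℕ) : ℝ) + 2 * m) / η ≤
      8 * m * (√(3 + 3 * m) * √(Real.log x)) / η := by
    apply div_le_div_of_nonneg_right _ hη.le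
    exact mul_le_mul_of_nonneg_left h2 (by positivity)
  have e : (2 * m + 8 * m * √(3 + 3 * m) / η) * √(Real.log x) =
      m * (2 * √(Real.log x)) + 8 * m * (√(3 + 3 * m) * √(Real.log x)) / η := by ring
  rw [e]
  have h4 : (m : ℝ) ≤ m * (2 * √(Real.log x)) := by nlinarith
  linarith

/-- the basic comparison at a regular scale -/
theorem regular {k : ℕ} (hk : 3 ≤ k) {τ : ℝ} (h0 : 0 < τ) (h1 : τ ≤ 1) {m N : ℕ} (hN : 1 ≤ N)
    (hgood : Nat.log 2 N ∉ Bad k m (τ / 4)) {Λ : ℝ} (hΛ : 1 ≤ Λ)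
    (hm : 2 * (8 / τ) * Λ ≤ 2 ^ m) :
    2 ^ (Nat.log 2 N - m) * (2 : ℝ) ^ m ≤ N ∧
    (∀ X : ℕ, (N : ℝ) ≤ Λ * X → (X : ℝ) ≤ Λ * N →
      d k (2 ^ (Nat.log 2 N - m)) ≤ (1 + τ) * d k X ∧
      ∀ Y : ℕ, (N : ℝ) ≤ Λ * Y → (Y : ℝ) ≤ Λ * N → d k Y ≤ (1 + τ) * d k X) := by
  set j := Nat.log 2 N with hj
  unfold Bad at hgood
  simp only [Set.mem_ofPred_eq, not_or, not_lt] at hgood
  obtain ⟨hjm, hg⟩ := hgood
  have hN1 : (2 : ℝ) ^ j ≤ N := by exact_mod_cast Nat.pow_log_le_self 2 (by omega : N ≠ 0)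
  have hN2 : (N : ℝ) < 2 ^ (j + 1) := by exact_mod_cast Nat.lt_pow_succ_log_self (by norm_num) N
  have hT0 : 0 < 8 / τ := by positivity
  have hT : 1 ≤ 8 / τ := by rw [le_div_iff₀ h0]; linarith
  have ej : (2 : ℝ) ^ j = 2 ^ (j - m) * 2 ^ m := by
    rw [← pow_add]; congr 1; omega
  have ejm : (2 : ℝ) ^ (j - m + 2 * m) = 2 ^ j * 2 ^ m := by
    rw [← pow_add]; congr 1; omega
  have hp : (0 : ℝ) < 2 ^ (j - m) := by positivity
  have hpj : (0 : ℝ) < 2 ^ j := by positivity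
  have hcmp : ∀ X : ℕ, (N : ℝ) ≤ Λ * X → (X : ℝ) ≤ Λ * N →
      d k X ≤ (1 + 1 / (8 / τ)) * d k (2 ^ (j - m)) ∧
      d k (2 ^ (j - m)) ≤ Real.exp (τ / 4) * (1 + 1 / (8 / τ)) * d k X := by
    intro X hX1 hX2
    refine compare hk hT hg ?_ ?_
    · -- T * 2 ^ i ≤ X
      have h3 : 8 / τ * 2 ^ (j - m) * Λ ≤ Λ * X := by
        calc 8 / τ * 2 ^ (j - m) * Λ ≤ 2 ^ (j - m) * 2 ^ m := by nlinarith
          _ = 2 ^ j := ej.symm
          _ ≤ N := hN1
          _ ≤ Λ * X := hX1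
      have hΛ0 : 0 < Λ := by linarith
      nlinarith
    · rw [ejm]
      calc 8 / τ * X ≤ 8 / τ * (Λ * N) := mul_le_mul_of_nonneg_left hX2 hT0.le
        _ ≤ 8 / τ * (Λ * (2 * 2 ^ j)) := by
            apply mul_le_mul_of_nonneg_left _ hT0.le
            apply mul_le_mul_of_nonneg_left _ (by linarith)
            rw [pow_succ] at hN2; linarith
        _ = (2 * (8 / τ) * Λ) * 2 ^ j := by ring
        _ ≤ 2 ^ m * 2 ^ j := mul_le_mul_of_nonneg_right hm hpj.le
        _ = 2 ^ j * 2 ^ m := by ring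
  refine ⟨by rw [← ej]; exact hN1, fun X hX1 hX2 => ?_⟩
  have hX := hcmp X hX1 hX2
  have hXpos : 0 < X := by
    rcases Nat.eq_zero_or_pos X with h | h
    · subst h
      have : (1 : ℝ) ≤ N := by exact_mod_cast hN
      simp at hX1; linarith
    · exact h
  have hdX := d_pos hk hXpos
  have hee := exp_le h0 h1
  have hq : 1 ≤ 1 + 1 / (8 / τ) := by
    have : 0 < 1 / (8 / τ) := by positivity
    linarith
  have hmid : Real.exp (τ / 4) * (1 + 1 / (8 / τ)) ≤
      Real.exp (τ / 4) * (1 + 1 / (8 / τ)) * (1 + 1 / (8 / τ)) := by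
    have : 0 < Real.exp (τ / 4) * (1 + 1 / (8 / τ)) := by positivity
    nlinarith
  constructor
  · refine hX.2.trans (mul_le_mul_of_nonneg_right (hmid.trans hee) hdX.le)
  · intro Y hY1 hY2
    have hY := hcmp Y hY1 hY2
    calc d k Y ≤ (1 + 1 / (8 / τ)) * d k (2 ^ (j - m)) := hY.1
      _ ≤ (1 + 1 / (8 / τ)) * (Real.exp (τ / 4) * (1 + 1 / (8 / τ)) * d k X) :=
          mul_le_mul_of_nonneg_left hX.2 (by linarith)
      _ = (Real.exp (τ / 4) * (1 + 1 / (8 / τ)) * (1 + 1 / (8 / τ))) * d k X := by ring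
      _ ≤ (1 + τ) * d k X := mul_le_mul_of_nonneg_right hee hdX.le

/-- the number of points of `A` in the progression `a, a + q, ..., a + (l - 1) q` -/
def hits (A : Finset ℕ) (a q l : ℕ) : ℕ := ((range l).filter (fun j => a + q * j ∈ A)).card

theorem hits_le {k : ℕ} (hk : 1 ≤ k) {A : Finset ℕ} (hA : APFree k A) {q : ℕ} (hq : 1 ≤ q)
    (a l : ℕ) : hits A a q l ≤ r k l := card_filter_le hk hA hq a l

/-- the complement of a progression splits into at most `q + 1` progressions -/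
theorem card_le_hits {k : ℕ} (hk : 1 ≤ k) {A : Finset ℕ} (hA : APFree k A) {N : ℕ}
    (hAN : A ⊆ Icc 1 N) {q : ℕ} (hq : 1 ≤ q) {a l : ℕ} (ha : 1 ≤ a) (hl : 1 ≤ l)
    (hlN : a + q * (l - 1) ≤ N) {L : ℕ} (hL : 1 ≤ L) :
    (A.card : ℝ) ≤ hits A a q l + ((N : ℝ) - l + 5 * q * L) * d k L := by
  classical
  set v := a + q * (l - 1) with hv
  set c := a % q with hc
  have hcq : c < q := Nat.mod_lt _ hq
  -- the four parts
  have hsub : A ⊆ ((range l).filter (fun j => a + q * j ∈ A)).image (fun j => a + q * j) ∪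
      (A.filter (fun n => 0 < n ∧ n ≤ a - 1 ∧ n % q = c) ∪
      (A.filter (fun n => v < n ∧ n ≤ N ∧ n % q = c) ∪
      ((range q).erase c).biUnion (fun c' => A.filter (fun n => 0 < n ∧ n ≤ N ∧ n % q = c')))) := by
    intro n hn
    have hn2 := hAN hn
    rw [mem_Icc] at hn2
    simp only [mem_union, mem_image, mem_filter, mem_range, mem_biUnion, mem_erase]
    by_cases h1 : n % q = c
    · by_cases h2 : n ≤ a - 1
      · exact Or.inr (Or.inl ⟨hn, by omega, h2, h1⟩)
      · by_cases h3 : v < n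
        · exact Or.inr (Or.inr (Or.inl ⟨hn, h3, hn2.2, h1⟩))
        · left
          have hle : a ≤ n := by omega
          have hdvd : q ∣ n - a := by
            have : a ≡ n [MOD q] := by
              show a % q = n % q
              rw [h1]
            exact (Nat.modEq_iff_dvd' hle).1 this
          obtain ⟨t, ht⟩ := hdvd
          have hnt : n = a + q * t := by omega
          refine ⟨t, ⟨?_, ?_⟩, hnt.symm⟩
          · have h5 : q * t ≤ q * (l - 1) := by omega
            have := Nat.le_of_mul_le_mul_left h5 hq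
            omega
          · rw [← hnt]; exact hn
    · exact Or.inr (Or.inr (Or.inr ⟨n % q, ⟨h1, Nat.mod_lt _ hq⟩, hn, by omega, hn2.2, rfl⟩))
  have hcard := card_le_card hsub
  have hc1 := card_union_le (((range l).filter (fun j => a + q * j ∈ A)).image (fun j => a + q * j))
      (A.filter (fun n => 0 < n ∧ n ≤ a - 1 ∧ n % q = c) ∪
      (A.filter (fun n => v < n ∧ n ≤ N ∧ n % q = c) ∪
      ((range q).erase c).biUnion (fun c' => A.filter (fun n => 0 < n ∧ n ≤ N ∧ n % q = c'))))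
  have hc2 := card_union_le (A.filter (fun n => 0 < n ∧ n ≤ a - 1 ∧ n % q = c))
      (A.filter (fun n => v < n ∧ n ≤ N ∧ n % q = c) ∪
      ((range q).erase c).biUnion (fun c' => A.filter (fun n => 0 < n ∧ n ≤ N ∧ n % q = c')))
  have hc3 := card_union_le (A.filter (fun n => v < n ∧ n ≤ N ∧ n % q = c))
      (((range q).erase c).biUnion (fun c' => A.filter (fun n => 0 < n ∧ n ≤ N ∧ n % q = c')))
  have hc4 : (((range l).filter (fun j => a + q * j ∈ A)).image (fun j => a + q * j)).card ≤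
      hits A a q l := card_image_le
  have hL' : (1 : ℝ) ≤ L := by exact_mod_cast hL
  have hq' : (1 : ℝ) ≤ q := by exact_mod_cast hq
  have hdL : 0 ≤ d k L := by unfold d; positivity
  have key : ∀ (u w c' : ℕ), u ≤ w →
      ((A.filter (fun n => u < n ∧ n ≤ w ∧ n % q = c')).card : ℝ) ≤
        (((w : ℝ) - u) / q + 1 + L) * d k L := by
    intro u w c' huw
    have h1 := card_class_le hk hA hq c' u w
    have h2 := r_le hk ((w - u) / q + 1) (N := L) hL
    have h3 : ((A.filter (fun n => u < n ∧ n ≤ w ∧ n % q = c')).card : ℝ) ≤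
        r k ((w - u) / q + 1) := by exact_mod_cast h1
    refine h3.trans (h2.trans ?_)
    apply mul_le_mul_of_nonneg_right _ hdL
    have h4 : (((w - u) / q : ℕ) : ℝ) ≤ ((w - u : ℕ) : ℝ) / q := Nat.cast_div_le
    rw [Nat.cast_sub huw] at h4
    push_cast
    linarith
  have k1 := key 0 (a - 1) c (by omega)
  have k2 := key v N c hlN
  have k3 : ((((range q).erase c).biUnion
      (fun c' => A.filter (fun n => 0 < n ∧ n ≤ N ∧ n % q = c'))).card : ℝ) ≤
      ((q : ℝ) - 1) * (((N : ℝ) / q + 1 + L) * d k L) := by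
    have h1 : (((range q).erase c).biUnion
      (fun c' => A.filter (fun n => 0 < n ∧ n ≤ N ∧ n % q = c'))).card ≤
        ∑ c' ∈ (range q).erase c, (A.filter (fun n => 0 < n ∧ n ≤ N ∧ n % q = c')).card :=
      card_biUnion_le
    have h2 : ((∑ c' ∈ (range q).erase c,
        (A.filter (fun n => 0 < n ∧ n ≤ N ∧ n % q = c')).card : ℕ) : ℝ) ≤
        ∑ c' ∈ (range q).erase c, (((N : ℝ) / q + 1 + L) * d k L) := by
      push_cast
      refine sum_le_sum fun c' _ => ?_
      have := key 0 N c' (by omega)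
      simpa using this
    rw [sum_const, card_erase_of_mem (mem_range.2 hcq), card_range, nsmul_eq_mul,
      Nat.cast_sub hq, Nat.cast_one] at h2
    refine le_trans ?_ h2
    exact_mod_cast h1
  have hall : (A.card : ℝ) ≤ hits A a q l +
      ((A.filter (fun n => 0 < n ∧ n ≤ a - 1 ∧ n % q = c)).card +
      ((A.filter (fun n => v < n ∧ n ≤ N ∧ n % q = c)).card +
      ((((range q).erase c).biUnion
      (fun c' => A.filter (fun n => 0 < n ∧ n ≤ N ∧ n % q = c'))).card : ℝ))) := by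
    have : A.card ≤ hits A a q l +
      ((A.filter (fun n => 0 < n ∧ n ≤ a - 1 ∧ n % q = c)).card +
      ((A.filter (fun n => v < n ∧ n ≤ N ∧ n % q = c)).card +
      (((range q).erase c).biUnion
      (fun c' => A.filter (fun n => 0 < n ∧ n ≤ N ∧ n % q = c'))).card)) := by omega
    exact_mod_cast this
  have hsum : (((a - 1 : ℕ) : ℝ) - (0 : ℕ)) / q + 1 + L + (((N : ℝ) - v) / q + 1 + L) +
      ((q : ℝ) - 1) * ((N : ℝ) / q + 1 + L) ≤ (N : ℝ) - l + 5 * q * L := by
    have hq0 : (0 : ℝ) < q := by linarith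
    have hav : (v : ℝ) = a + q * ((l : ℝ) - 1) := by
      rw [hv]; push_cast [Nat.cast_sub hl]; ring
    rw [Nat.cast_sub ha, hav]
    have e : ((a : ℝ) - (1 : ℕ) - (0 : ℕ)) / q + 1 + L +
        (((N : ℝ) - (a + q * ((l : ℝ) - 1))) / q + 1 + L) +
        ((q : ℝ) - 1) * ((N : ℝ) / q + 1 + L) =
        N - l + (2 + q + (q + 1) * L) - 1 / q := by
      push_cast
      field_simp
      ring
    rw [e]
    have : 0 < 1 / (q : ℝ) := by positivity
    nlinarith
  have hfin := mul_le_mul_of_nonneg_right hsum hdL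
  have e2 : ((((a - 1 : ℕ) : ℝ) - (0 : ℕ)) / q + 1 + L + (((N : ℝ) - v) / q + 1 + L) +
      ((q : ℝ) - 1) * ((N : ℝ) / q + 1 + L)) * d k L =
      (((((a - 1 : ℕ) : ℝ) - (0 : ℕ)) / q + 1 + L) * d k L) +
      ((((N : ℝ) - v) / q + 1 + L) * d k L) +
      ((q : ℝ) - 1) * (((N : ℝ) / q + 1 + L) * d k L) := by ring
  rw [e2] at hfin
  linarith

end Pool.Agent.H617R3.AP
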