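import Pool.Agent.H617R3.AP.Defs

/-!
# Almost all scales are regular
-/

set_option autoImplicit false

open Finset

namespace Pool.Agent.H617R3.AP

/-- the density -/
noncomputable def d (k N : ℕ) : ℝ := (r k N : ℝ) / N

theorem r_pos {k : ℕ} (hk : 3 ≤ k) {N : ℕ} (hN : 1 ≤ N) : 0 < (r k N : ℝ) := by
  have h := behrend hk N
  have hN' : (0 : ℝ) < N := by exact_mod_cast hN
  exact lt_of_lt_of_le (mul_pos hN' (Real.exp_pos _)) h

theorem d_pos {k : ℕ} (hk : 3 ≤ k) {N : ℕ} (hN : 1 ≤ N) : 0 < d k N :=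
  div_pos (r_pos hk hN) (by exact_mod_cast hN)

theorem d_le {k : ℕ} (hk : 1 ≤ k) {M N : ℕ} (hM : 0 < M) (hN : 0 < N) :
    d k M ≤ (1 + (N : ℝ) / M) * d k N := by
  have h := r_le hk M hN
  have hM' : (0 : ℝ) < M := by exact_mod_cast hM
  have hN' : (0 : ℝ) < N := by exact_mod_cast hN
  unfold d
  rw [div_le_iff₀ hM']
  refine h.trans (le_of_eq ?_)
  field_simp

/-- the logarithm of the density at the scale `2 ^ j` -/
noncomputable def f (k j : ℕ) : ℝ := Real.log (d k (2 ^ j))

theorem f_nonpos {k : ℕ} (hk : 3 ≤ k) (j : ℕ) : f k j ≤ 0 := by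
  unfold f
  apply Real.log_nonpos (d_pos hk (Nat.one_le_two_pow)).le
  unfold d
  have : (0 : ℝ) < ((2 ^ j : ℕ) : ℝ) := by positivity
  rw [div_le_one this]
  exact_mod_cast r_le_self _ _

theorem f_anti_succ {k : ℕ} (hk : 3 ≤ k) (j : ℕ) : f k (j + 1) ≤ f k j := by
  unfold f
  apply Real.log_le_log (d_pos hk (Nat.one_le_two_pow))
  unfold d
  have h := r_mul_le (k := k) (by omega) 2 (2 ^ j)
  have h2 : (r k (2 ^ (j + 1)) : ℝ) ≤ 2 * r k (2 ^ j) := by
    have e : 2 ^ (j + 1) = 2 * 2 ^ j := by ring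
    rw [e]; exact_mod_cast h
  rw [div_le_div_iff₀ (by positivity) (by positivity)]
  push_cast
  have h3 : (0 : ℝ) < 2 ^ j := by positivity
  have e : (2 : ℝ) ^ (j + 1) = 2 * 2 ^ j := by ring
  rw [e]
  nlinarith

theorem f_anti {k : ℕ} (hk : 3 ≤ k) : Antitone (f k) := antitone_nat_of_succ_le (f_anti_succ hk)

theorem f_lower {k : ℕ} (hk : 3 ≤ k) (j : ℕ) : -(4 * √(j : ℝ)) ≤ f k j := by
  have h := behrend hk (2 ^ j)
  have hp : (0 : ℝ) < ((2 ^ j : ℕ) : ℝ) := by positivity
  unfold f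
  rw [Real.le_log_iff_exp_le (d_pos hk (Nat.one_le_two_pow))]
  unfold d
  rw [le_div_iff₀ hp]
  refine le_trans ?_ h
  rw [mul_comm]
  apply mul_le_mul_of_nonneg_left _ hp.le
  apply Real.exp_le_exp.2
  have h1 : √(Real.log ((2 ^ j : ℕ) : ℝ)) ≤ √(j : ℝ) := by
    apply Real.sqrt_le_sqrt
    push_cast
    rw [Real.log_pow]
    have := Real.log_two_lt_d9
    have hj : (0 : ℝ) ≤ j := Nat.cast_nonneg j
    nlinarith
  linarith

/-- telescoping -/
theorem sum_le {k : ℕ} (hk : 3 ≤ k) (K h : ℕ) :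
    ∑ i ∈ range K, (f k i - f k (i + h)) ≤ 4 * h * √((K : ℝ) + h) := by
  induction h with
  | zero => simp
  | succ h ih =>
    have e : ∑ i ∈ range K, (f k i - f k (i + (h + 1))) =
        ∑ i ∈ range K, (f k i - f k (i + h)) +
          ∑ i ∈ range K, (f k (i + h) - f k (i + 1 + h)) := by
      rw [← sum_add_distrib]
      refine sum_congr rfl fun i _ => ?_
      rw [show i + (h + 1) = i + 1 + h by ring]
      ring
    rw [e, Finset.sum_range_sub' (fun i => f k (i + h))]
    have h1 := f_nonpos hk (0 + h)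
    have h2 := f_lower hk (K + h)
    push_cast at h2 ⊢
    have h3 : √((K : ℝ) + h) ≤ √((K : ℝ) + (h + 1)) := Real.sqrt_le_sqrt (by linarith)
    have h4 : 0 ≤ √((K : ℝ) + h) := Real.sqrt_nonneg _
    have hh : (0 : ℝ) ≤ h := Nat.cast_nonneg h
    nlinarith

open Classical in
/-- the number of irregular scales -/
theorem card_bad_le {k : ℕ} (hk : 3 ≤ k) (K h : ℕ) {η : ℝ} (hη : 0 < η) :
    (((range K).filter (fun i => η < f k i - f k (i + h))).card : ℝ) ≤
      4 * h * √((K : ℝ) + h) / η := by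
  rw [le_div_iff₀ hη]
  refine le_trans ?_ (sum_le hk K h)
  calc (((range K).filter (fun i => η < f k i - f k (i + h))).card : ℝ) * η
      = ∑ i ∈ (range K).filter (fun i => η < f k i - f k (i + h)), η := by
        rw [sum_const, nsmul_eq_mul]
    _ ≤ ∑ i ∈ (range K).filter (fun i => η < f k i - f k (i + h)), (f k i - f k (i + h)) := by
        refine sum_le_sum fun i hi => ?_
        rw [mem_filter] at hi
        exact hi.2.le
    _ ≤ ∑ i ∈ range K, (f k i - f k (i + h)) := by
        refine sum_le_sum_of_subset_of_nonneg (filter_subset _ _) fun i _ _ => ?_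
        have := f_anti hk (show i ≤ i + h by omega)
        linarith

/-- comparison of the density at a number between two regular scales -/
theorem compare {k : ℕ} (hk : 3 ≤ k) {i h : ℕ} {η T : ℝ} (hT : 1 ≤ T)
    (hgood : f k i - f k (i + h) ≤ η) {X : ℕ} (h1 : T * 2 ^ i ≤ X) (h2 : T * X ≤ 2 ^ (i + h)) :
    d k X ≤ (1 + 1 / T) * d k (2 ^ i) ∧
      d k (2 ^ i) ≤ Real.exp η * (1 + 1 / T) * d k X := by
  have hT0 : 0 < T := by linarith
  have hp : (0 : ℝ) < 2 ^ i := by positivity
  have hX : (0 : ℝ) < X := lt_of_lt_of_le (by positivity) h1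
  have hX' : 0 < X := by exact_mod_cast hX
  have hdL := d_pos hk (N := 2 ^ i) Nat.one_le_two_pow
  have hdX := d_pos hk (N := X) hX'
  constructor
  · refine (d_le (k := k) (by omega) hX' (N := 2 ^ i) (by positivity)).trans ?_
    apply mul_le_mul_of_nonneg_right _ hdL.le
    push_cast
    have : (2 : ℝ) ^ i / X ≤ 1 / T := by
      rw [div_le_div_iff₀ hX hT0]; linarith
    linarith
  · have hdU := d_pos hk (N := 2 ^ (i + h)) Nat.one_le_two_pow
    have h3 : d k (2 ^ i) ≤ Real.exp η * d k (2 ^ (i + h)) := by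
      have h4 : Real.log (d k (2 ^ i)) ≤ η + Real.log (d k (2 ^ (i + h))) := by
        unfold f at hgood; linarith
      have h5 := Real.exp_le_exp.2 h4
      rwa [Real.exp_add, Real.exp_log hdL, Real.exp_log hdU] at h5
    refine h3.trans ?_
    rw [mul_assoc]
    apply mul_le_mul_of_nonneg_left _ (Real.exp_pos _).le
    refine (d_le (k := k) (by omega) (M := 2 ^ (i + h)) (by positivity) hX').trans ?_
    apply mul_le_mul_of_nonneg_right _ hdX.le
    push_cast
    have : (X : ℝ) / 2 ^ (i + h) ≤ 1 / T := by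
      rw [div_le_div_iff₀ (by positivity) hT0]; linarith
    linarith

open Classical in
/-- sums of reciprocals over blocks -/
theorem sum_blocks (E : Set ℕ) (B : Set ℕ) (hE : ∀ N ∈ E, Nat.log 2 N ∈ B) (x : ℕ) :
    ∑ N ∈ (Icc 1 x).filter (fun N => N ∈ E), (1 : ℝ) / N ≤
      ((range (Nat.log 2 x + 1)).filter (fun j => j ∈ B)).card := by
  have hmaps : ∀ N ∈ (Icc 1 x).filter (fun N => N ∈ E),
      Nat.log 2 N ∈ (range (Nat.log 2 x + 1)).filter (fun j => j ∈ B) := by
    intro N hN
    rw [mem_filter, mem_Icc] at hN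
    rw [mem_filter, mem_range]
    have := Nat.log_mono_right (b := 2) hN.1.2
    exact ⟨by omega, hE N hN.2⟩
  rw [← Finset.sum_fiberwise_of_maps_to hmaps]
  have : ∀ j ∈ (range (Nat.log 2 x + 1)).filter (fun j => j ∈ B),
      ∑ N ∈ ((Icc 1 x).filter (fun N => N ∈ E)).filter (fun N => Nat.log 2 N = j),
        (1 : ℝ) / N ≤ 1 := by
    intro j _
    calc ∑ N ∈ ((Icc 1 x).filter (fun N => N ∈ E)).filter (fun N => Nat.log 2 N = j),
        (1 : ℝ) / N ≤ ∑ N ∈ Ico (2 ^ j) (2 ^ (j + 1)), (1 : ℝ) / 2 ^ j := by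
          have hsub : ((Icc 1 x).filter (fun N => N ∈ E)).filter (fun N => Nat.log 2 N = j) ⊆
              Ico (2 ^ j) (2 ^ (j + 1)) := by
            intro N hN
            rw [mem_filter, mem_filter, mem_Icc] at hN
            rw [mem_Ico, ← hN.2]
            exact ⟨Nat.pow_log_le_self 2 (by omega), Nat.lt_pow_succ_log_self (by norm_num) N⟩
          refine le_trans (sum_le_sum (g := fun _ => (1 : ℝ) / 2 ^ j) fun N hN => ?_)
            (sum_le_sum_of_subset_of_nonneg hsub fun _ _ _ => by positivity)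
          have := hsub hN
          rw [mem_Ico] at this
          apply one_div_le_one_div_of_le (by positivity)
          exact_mod_cast this.1
      _ = 1 := by
          rw [sum_const, Nat.card_Ico, nsmul_eq_mul]
          have e : 2 ^ (j + 1) - 2 ^ j = 2 ^ j := by
            have : 2 ^ (j + 1) = 2 * 2 ^ j := by ring
            omega
          rw [e]; push_cast; field_simp
  refine (sum_le_sum this).trans ?_
  simp

end Pool.Agent.H617R3.AP
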