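import Pool.Agent.H617R3.AP.Fin

/-!
# Wide windows: ratios up to `exp (c √(log N))`
-/

set_option autoImplicit false

open Finset

namespace Pool.Agent.H617R3.AP

/-- the half width of the window at the scale `2 ^ j` -/
noncomputable def wid (c : ℝ) (j : ℕ) : ℕ := ⌊c * √(j : ℝ)⌋₊

theorem wid_mono {c : ℝ} (hc : 0 ≤ c) {i j : ℕ} (h : i ≤ j) : wid c i ≤ wid c j := by
  unfold wid
  apply Nat.floor_le_floor
  apply mul_le_mul_of_nonneg_left _ hc
  exact Real.sqrt_le_sqrt (by exact_mod_cast h)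

/-- irregular scales, for windows of variable width -/
def WBad (k : ℕ) (c η : ℝ) (J : ℕ) : Set ℕ := {j | j < J ∨ j ∈ Bad k (wid c j) η}

open Classical in
theorem wide_card {k : ℕ} (hk : 3 ≤ k) {c η : ℝ} (hc : 0 < c) (hc1 : c ≤ 1) (hη : 0 < η)
    (J K : ℕ) (hK : 1 ≤ K) :
    (((range K).filter (fun j => j ∈ WBad k c η J)).card : ℝ) ≤
      J + c * (1 + 16 / η) * K := by
  set H := wid c K with hH
  have h1 : (range K).filter (fun j => j ∈ WBad k c η J) ⊆
      range J ∪ (range K).filter (fun j => j ∈ Bad k H η) := by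
    intro j hj
    rw [mem_filter, mem_range] at hj
    rw [mem_union, mem_range, mem_filter, mem_range]
    rcases hj.2 with h | h
    · exact Or.inl h
    · refine Or.inr ⟨hj.1, ?_⟩
      have hw : wid c j ≤ H := wid_mono hc.le hj.1.le
      unfold Bad at h ⊢
      simp only [Set.mem_ofPred_eq] at h ⊢
      by_cases h2 : j < H
      · exact Or.inl h2
      · right
        rcases h with h | h
        · omega
        · have h3 := f_anti hk (show j - H ≤ j - wid c j by omega)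
          have h4 := f_anti hk (show j - wid c j + 2 * wid c j ≤ j - H + 2 * H by omega)
          linarith
  have h2 := (card_le_card h1).trans (card_union_le _ _)
  rw [card_range] at h2
  have h3 := bad_card hk H K hη
  have h4 : (((range K).filter (fun j => j ∈ WBad k c η J)).card : ℝ) ≤
      J + ((range K).filter (fun j => j ∈ Bad k H η)).card := by exact_mod_cast h2
  have hK1 : (1 : ℝ) ≤ K := by exact_mod_cast hK
  have hHr : (H : ℝ) ≤ c * √(K : ℝ) := Nat.floor_le (by positivity)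
  have hsq : √(K : ℝ) ≤ K := by
    rw [Real.sqrt_le_left (by linarith)]
    nlinarith
  have hsq1 : 0 ≤ √(K : ℝ) := Real.sqrt_nonneg _
  have hss : √(K : ℝ) * √(K : ℝ) = K := Real.mul_self_sqrt (by linarith)
  have h5 : √((K : ℝ) + 2 * H) ≤ 2 * √(K : ℝ) := by
    have h6 : (K : ℝ) + 2 * H ≤ 4 * K := by nlinarith
    calc √((K : ℝ) + 2 * H) ≤ √(4 * K) := Real.sqrt_le_sqrt h6
      _ = 2 * √(K : ℝ) := by
        rw [Real.sqrt_mul (by norm_num)]
        congr 1
        rw [show (4 : ℝ) = 2 ^ 2 by norm_num]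
        exact Real.sqrt_sq (by norm_num)
  have h7 : 8 * (H : ℝ) * √((K : ℝ) + 2 * H) / η ≤ 16 * c * K / η := by
    apply div_le_div_of_nonneg_right _ hη.le
    calc 8 * (H : ℝ) * √((K : ℝ) + 2 * H) ≤ 8 * (c * √(K : ℝ)) * (2 * √(K : ℝ)) :=
          mul_le_mul (by linarith) h5 (Real.sqrt_nonneg _) (by positivity)
      _ = 16 * c * (√(K : ℝ) * √(K : ℝ)) := by ring
      _ = 16 * c * K := by rw [hss]
  have h8 : (H : ℝ) ≤ c * K := hHr.trans (mul_le_mul_of_nonneg_left hsq hc.le)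
  have e : (J : ℝ) + c * (1 + 16 / η) * K = J + (c * K + 16 * c * K / η) := by ring
  rw [e]
  linarith

/-- no density increment on a progression whose length is comparable -/
theorem upper_aux {k : ℕ} (hk : 3 ≤ k) {ε : ℝ} (h0 : 0 < ε) (h1 : ε ≤ 1) {N : ℕ} (hN : 1 ≤ N)
    {A : Finset ℕ} (hAF : APFree k A) (hAc : (1 - ε / 8) * r k N ≤ A.card)
    {a q l : ℕ} (hq : 1 ≤ q) (hl : 0 < l) (hd : d k l ≤ (1 + ε / 8) * d k N) :
    (hits A a q l : ℝ) ≤ (1 + ε) * (A.card * ((l : ℝ) / N)) := by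
  have hN0 : (0 : ℝ) < N := by exact_mod_cast hN
  have hlpos : (0 : ℝ) < l := by exact_mod_cast hl
  have hDA := ratio_aux h0 h1 (Nat.cast_nonneg (r k N)) hN0 hAc le_rfl (D := d k l) hd
  have h6 : (hits A a q l : ℝ) ≤ r k l := by
    exact_mod_cast hits_le (by omega) hAF hq a l
  have h7 : (r k l : ℝ) = d k l * l := by
    unfold d; field_simp
  have hA0 : (0 : ℝ) ≤ (A.card : ℝ) / N := by positivity
  calc (hits A a q l : ℝ) ≤ d k l * l := by rw [← h7]; exact h6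
    _ ≤ ((1 + 3 * ε / 8) * ((A.card : ℝ) / N)) * l :=
        mul_le_mul_of_nonneg_right hDA hlpos.le
    _ ≤ ((1 + ε) * ((A.card : ℝ) / N)) * l := by
        apply mul_le_mul_of_nonneg_right _ hlpos.le
        apply mul_le_mul_of_nonneg_right _ hA0
        linarith
    _ = (1 + ε) * (A.card * ((l : ℝ) / N)) := by ring

theorem ratio_close {k : ℕ} (hk : 3 ≤ k) {τ : ℝ} (h0 : 0 < τ) {N M : ℕ} (hN : 1 ≤ N) (hM : 1 ≤ M)
    (c1 : d k M ≤ (1 + τ) * d k N) (c2 : d k N ≤ (1 + τ) * d k M) :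
    |(r k M : ℝ) / r k N / ((M : ℝ) / N) - 1| ≤ τ := by
  have hdN := d_pos hk hN
  have hdM := d_pos hk hM
  have hN0 : (0 : ℝ) < N := by exact_mod_cast hN
  have hM0 : (0 : ℝ) < M := by exact_mod_cast hM
  have e : (r k M : ℝ) / r k N / ((M : ℝ) / N) = d k M / d k N := by
    have hr := r_pos hk hN
    unfold d
    field_simp
  rw [e, abs_le]
  constructor
  · have : 1 - τ ≤ d k M / d k N := by
      rw [le_div_iff₀ hdN]
      nlinarith
    linarith
  · have : d k M / d k N ≤ 1 + τ := by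
      rw [div_le_iff₀ hdN]; exact c1
    linarith

theorem len_le {a q l N : ℕ} (ha : 1 ≤ a) (hq : 1 ≤ q) (hal : a + q * l ≤ N + q) : l ≤ N := by
  rcases Nat.eq_zero_or_pos l with hl | hl
  · omega
  · obtain ⟨t, rfl⟩ : ∃ t, l = t + 1 := ⟨l - 1, by omega⟩
    have e : q * (t + 1) = q * t + q := by ring
    have h5 : 1 * t ≤ q * t := Nat.mul_le_mul_right _ hq
    omega

/-- the window at the scale `2 ^ j` is wide enough -/
theorem wide_param {b τ : ℝ} (hb : 0 < b) (hτ : 0 < τ) {N j : ℕ} (hN : 1 ≤ N)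
    (hj : j = Nat.log 2 N) (hS : (1 + Real.log (16 / τ) + b) ≤ 2 / 5 * b * √(j : ℝ)) :
    2 * (8 / τ) * Real.exp (b / 4 * √(Real.log N)) ≤ 2 ^ (wid b j) := by
  have hN0 : (0 : ℝ) < N := by exact_mod_cast hN
  have hL2 := Real.log_two_gt_d9
  have hL2' := Real.log_two_lt_d9
  have hs0 : 0 ≤ √(j : ℝ) := Real.sqrt_nonneg _
  have h3 : √(Real.log N) ≤ √(j : ℝ) + 1 := by
    have h4 : Real.log N ≤ (j : ℝ) + 1 := by
      have h5 : (N : ℝ) ≤ 2 ^ (j + 1) := by
        rw [hj]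
        exact_mod_cast (Nat.lt_pow_succ_log_self (by norm_num : 1 < 2) N).le
      have h6 := Real.log_le_log hN0 h5
      rw [Real.log_pow] at h6
      push_cast at h6
      have hj0 : (0 : ℝ) ≤ j := Nat.cast_nonneg _
      nlinarith
    calc √(Real.log N) ≤ √((j : ℝ) + 1) := Real.sqrt_le_sqrt h4
      _ ≤ √(j : ℝ) + 1 := by
        rw [Real.sqrt_le_left (by linarith)]
        have := Real.sq_sqrt (Nat.cast_nonneg j : (0 : ℝ) ≤ j)
        nlinarith
  have hw : b * √(j : ℝ) - 1 ≤ wid b j := by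
    have := Nat.lt_floor_add_one (b * √(j : ℝ))
    unfold wid
    linarith
  have hw0 : (0 : ℝ) ≤ wid b j := Nat.cast_nonneg _
  have h7 : Real.log (16 / τ) + b / 4 * √(Real.log N) ≤ wid b j * Real.log 2 := by
    have h8 : b / 4 * √(Real.log N) ≤ b / 4 * (√(j : ℝ) + 1) :=
      mul_le_mul_of_nonneg_left h3 (by positivity)
    have h9 : (b * √(j : ℝ) - 1) * (69 / 100) ≤ wid b j * Real.log 2 := by
      rcases le_or_gt 0 (b * √(j : ℝ) - 1) with h | h
      · exact mul_le_mul hw (by linarith) (by norm_num) hw0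
      · have : 0 ≤ wid b j * Real.log 2 := mul_nonneg hw0 (by linarith)
        nlinarith
    have h10 : 0 ≤ b * √(j : ℝ) := by positivity
    linarith
  have h11 := Real.exp_le_exp.2 h7
  rw [Real.exp_add, Real.exp_log (by positivity)] at h11
  calc 2 * (8 / τ) * Real.exp (b / 4 * √(Real.log N))
      = 16 / τ * Real.exp (b / 4 * √(Real.log N)) := by ring
    _ ≤ Real.exp (wid b j * Real.log 2) := h11
    _ = 2 ^ (wid b j) := by
      rw [mul_comm, Real.exp_mul, Real.exp_log (by norm_num), Real.rpow_natCast]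

open Classical in
theorem part_three {k : ℕ} (hk : 3 ≤ k) {ε : ℝ} (h0 : 0 < ε) (h1 : ε ≤ 1) :
    ∃ (c C : ℝ) (E : Set ℕ), 0 < c ∧
      (∀ x : ℕ, 1 ≤ x → ∑ N ∈ (Icc 1 x).filter (fun N => N ∈ E), (1 : ℝ) / N ≤
        ε * Real.log x + C) ∧
      ∀ N : ℕ, 1 ≤ N → N ∉ E →
        (∀ M : ℕ, N * Real.exp (-(c * √(Real.log N))) ≤ M →
          (M : ℝ) ≤ N * Real.exp (c * √(Real.log N)) →
          |(r k M : ℝ) / r k N / ((M : ℝ) / N) - 1| ≤ ε) ∧
        ∀ A : Finset ℕ, A ⊆ Icc 1 N → APFree k A → (1 - ε / 8) * r k N ≤ A.card →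
          ∀ a q l : ℕ, 1 ≤ a → 1 ≤ q → a + q * l ≤ N + q →
            N * Real.exp (-(c * √(Real.log N))) ≤ l →
            (hits A a q l : ℝ) ≤ (1 + ε) * (A.card * ((l : ℝ) / N)) := by
  obtain ⟨τ, hτ⟩ : ∃ τ : ℝ, τ = ε / 8 := ⟨_, rfl⟩
  have hτ0 : 0 < τ := by rw [hτ]; positivity
  have hτ1 : τ ≤ 1 := by linarith
  obtain ⟨b, hb⟩ : ∃ b : ℝ, b = ε / (2 * (1 + 16 / (τ / 4))) := ⟨_, rfl⟩
  have h16 : 0 < 16 / (τ / 4) := by positivity
  have hb0 : 0 < b := by rw [hb]; positivity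
  have hb1 : b ≤ 1 := by
    rw [hb, div_le_one (by positivity)]
    linarith
  have hbε : b * (1 + 16 / (τ / 4)) = ε / 2 := by
    rw [hb]; field_simp
  obtain ⟨S, hS⟩ : ∃ S : ℝ, S = (1 + Real.log (16 / τ) + b) / (2 / 5 * b) := ⟨_, rfl⟩
  obtain ⟨J, hJ⟩ := exists_nat_gt (S ^ 2)
  refine ⟨b / 4, J + 1, {N | Nat.log 2 N ∈ WBad k b (τ / 4) J}, by positivity,
    fun x hx => ?_, fun N hN hNE => ?_⟩
  · refine (sum_blocks _ (WBad k b (τ / 4) J) (fun N hN => hN) x).trans ?_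
    refine (wide_card hk hb0 hb1 (by positivity) J (Nat.log 2 x + 1) (by omega)).trans ?_
    rw [hbε]
    have hlog := natlog_le hx
    have hl0 : 0 ≤ Real.log x := Real.log_nonneg (by exact_mod_cast hx)
    push_cast
    nlinarith
  obtain ⟨j, hj⟩ : ∃ j, j = Nat.log 2 N := ⟨_, rfl⟩
  have hNE' : ¬ (j < J ∨ j ∈ Bad k (wid b j) (τ / 4)) := by rw [hj]; exact hNE
  rw [not_or, not_lt] at hNE'
  obtain ⟨hJN, hbad⟩ := hNE'
  have hN0 : (0 : ℝ) < N := by exact_mod_cast hN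
  have hlogN : 0 ≤ Real.log N := Real.log_nonneg (by exact_mod_cast hN)
  have hSj : S ≤ √(j : ℝ) := by
    apply Real.le_sqrt_of_sq_le
    have : (J : ℝ) ≤ j := by exact_mod_cast hJN
    linarith
  have hSj2 : 1 + Real.log (16 / τ) + b ≤ 2 / 5 * b * √(j : ℝ) := by
    rw [hS, div_le_iff₀ (by positivity)] at hSj
    linarith
  have hm := wide_param hb0 hτ0 hN hj hSj2
  obtain ⟨Λ, hΛ⟩ : ∃ Λ : ℝ, Λ = Real.exp (b / 4 * √(Real.log N)) := ⟨_, rfl⟩
  rw [← hΛ] at hm
  have hΛ1 : 1 ≤ Λ := by rw [hΛ]; exact Real.one_le_exp (by positivity)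
  have hΛ0 : 0 < Λ := by linarith
  have hinv : Λ * Real.exp (-(b / 4 * √(Real.log N))) = 1 := by
    rw [hΛ, ← Real.exp_add]; simp
  have hreg := regular hk hτ0 hτ1 hN (by rw [← hj]; exact hbad) hΛ1 hm
  have hNN : (N : ℝ) ≤ Λ * N := by nlinarith
  have hlow : ∀ M : ℕ, N * Real.exp (-(b / 4 * √(Real.log N))) ≤ M → (N : ℝ) ≤ Λ * M ∧ 1 ≤ M := by
    intro M hM
    have h2 : (0 : ℝ) < M := lt_of_lt_of_le (by positivity) hM
    refine ⟨?_, by exact_mod_cast h2⟩
    calc (N : ℝ) = (Λ * Real.exp (-(b / 4 * √(Real.log N)))) * N := by rw [hinv, one_mul]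
      _ = Λ * (N * Real.exp (-(b / 4 * √(Real.log N)))) := by ring
      _ ≤ Λ * M := mul_le_mul_of_nonneg_left hM hΛ0.le
  constructor
  · intro M hM1 hM2
    obtain ⟨hM1', hM0'⟩ := hlow M hM1
    have hM2' : (M : ℝ) ≤ Λ * N := by rw [hΛ, mul_comm]; exact hM2
    exact (ratio_close hk hτ0 hN hM0' ((hreg.2 N hNN hNN).2 M hM1' hM2')
      ((hreg.2 M hM1' hM2').2 N hNN hNN)).trans (by linarith)
  · intro A hA hAF hAc a q l ha hq hal hl
    obtain ⟨hl1, hlpos⟩ := hlow l hl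
    have hlN : (l : ℝ) ≤ N := by exact_mod_cast len_le ha hq hal
    have c1 := (hreg.2 N hNN hNN).2 l hl1 (hlN.trans hNN)
    exact upper_aux hk h0 h1 hN hAF hAc hq hlpos (by rw [← hτ]; exact c1)

end Pool.Agent.H617R3.AP
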